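import Mathlib
import Pool.Agent.TH314.ET.Energy

/-!
# The arithmetic large sieve with the products of `u` primes
-/

set_option autoImplicit false

open Finset

namespace Pool.Agent.V8H10.CC

open Pool.Agent.Helper112
open Pool.Agent.TH314.ET

/-- the arithmetic large sieve -/
theorem sieve_ineq {Z : Finset ℕ} {N : ℕ} (hZ : Z ⊆ Icc 1 N) (Q : ℕ) :
    (Z.card : ℝ) * ∑ q ∈ (Icc 1 Q).filter Squarefree,
      ∏ p ∈ q.primeFactors, (((p : ℝ) - occ Z p) / occ Z p) ≤ 6 * (N + (Q : ℝ) ^ 2) := by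
  rcases Z.eq_empty_or_nonempty with h0 | h0
  · subst h0
    simp only [Finset.card_empty, Nat.cast_zero, zero_mul]
    positivity
  have h1 := additive_large_sieve N Q (ind Z)
  have h2 : ∑ n ∈ Icc 1 N, ‖ind Z n‖ ^ 2 = (Z.card : ℝ) := by
    have h3 : ∀ n ∈ Icc 1 N, ‖ind Z n‖ ^ 2 = if n ∈ Z then (1 : ℝ) else 0 := by
      intro n _
      unfold ind
      split_ifs <;> simp
    rw [Finset.sum_congr rfl h3, Finset.sum_ite_mem, Finset.inter_eq_right.2 hZ]
    simp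
  rw [h2] at h1
  have h3 : ∀ x : ℝ, Sf (ind Z) x = ∑ n ∈ Icc 1 N, ind Z n * ee (n * x) := by
    intro x
    rw [Sf_ind]
    rw [← Finset.sum_subset hZ]
    · refine Finset.sum_congr rfl fun a ha => ?_
      simp [ind, ha]
    · intro n _ hn
      simp [ind, hn]
  have h4 : ∑ q ∈ (Icc 1 Q).filter Squarefree,
      (∏ p ∈ q.primeFactors, (((p : ℝ) - occ Z p) / occ Z p)) * (Z.card : ℝ) ^ 2 ≤
      6 * (N + (Q : ℝ) ^ 2) * (Z.card : ℝ) := by
    refine le_trans ?_ h1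
    have h5 : ∑ q ∈ (Icc 1 Q).filter Squarefree,
        ∑ a ∈ (range q).filter (fun a => a.Coprime q), ‖Sf (ind Z) (a / q)‖ ^ 2 ≤
        ∑ q ∈ Icc 1 Q, ∑ a ∈ (range q).filter (fun a => a.Coprime q), ‖Sf (ind Z) (a / q)‖ ^ 2 :=
      Finset.sum_le_sum_of_subset_of_nonneg (Finset.filter_subset _ _) fun _ _ _ => by positivity
    have h6 : ∑ q ∈ Icc 1 Q, ∑ a ∈ (range q).filter (fun a => a.Coprime q),
        ‖Sf (ind Z) (a / q)‖ ^ 2 = ∑ f ∈ Icc 1 Q, ∑ a ∈ (range f).filter (fun a => a.Coprime f),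
        ‖∑ n ∈ Icc 1 N, ind Z n * ee (n * a / f)‖ ^ 2 := by
      refine Finset.sum_congr rfl fun q _ => Finset.sum_congr rfl fun a _ => ?_
      rw [h3]
      congr 2
      refine Finset.sum_congr rfl fun n _ => ?_
      rw [mul_div_assoc]
    rw [← h6]
    refine le_trans (Finset.sum_le_sum fun q hq => ?_) h5
    have hq' := (mem_filter.1 hq).2
    have h7 := mont_sqf (ind_summable Z) (fun p => Z.image (· % p)) q hq' (by
      intro p hp
      have hp0 : 0 < p := (Nat.prime_of_mem_primeFactors hp).pos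
      exact ⟨fun n hn => mem_image_of_mem _ (ne_zero_mem hn), occ_pos h0 p, occ_le Z hp0⟩) 0
    rw [Sf_ind_zero, Complex.norm_natCast] at h7
    refine h7.trans (le_of_eq (Finset.sum_congr rfl fun a _ => by rw [add_zero]))
  rw [← Finset.sum_mul] at h4
  have hc : (0 : ℝ) < (Z.card : ℝ) := by exact_mod_cast Finset.card_pos.2 h0
  refine le_of_mul_le_mul_right ?_ hc
  calc (Z.card : ℝ) * (∑ q ∈ (Icc 1 Q).filter Squarefree,
      ∏ p ∈ q.primeFactors, (((p : ℝ) - occ Z p) / occ Z p)) * (Z.card : ℝ)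
      = (∑ q ∈ (Icc 1 Q).filter Squarefree,
      ∏ p ∈ q.primeFactors, (((p : ℝ) - occ Z p) / occ Z p)) * (Z.card : ℝ) ^ 2 := by ring
    _ ≤ _ := h4

/-- the products of `u` primes of a set `P` -/
theorem sum_lower (P : Finset ℕ) (y u Q : ℕ) (hP : ∀ p ∈ P, p.Prime ∧ p ≤ y) (hQ : y ^ u ≤ Q)
    (g : ℕ → ℝ) (g0 : ℝ) (hg0 : 0 ≤ g0) (hg : ∀ p ∈ P, g0 ≤ g p)
    (hnn : ∀ p : ℕ, p.Prime → 0 ≤ g p) :
    (P.card.choose u : ℝ) * g0 ^ u ≤
      ∑ q ∈ (Icc 1 Q).filter Squarefree, ∏ p ∈ q.primeFactors, g p := by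
  classical
  set S := P.powersetCard u with hS
  have hSp : ∀ s ∈ S, ∀ p ∈ s, p.Prime := by
    intro s hs p hp
    exact (hP p ((Finset.mem_powersetCard.1 hs).1 hp)).1
  have hpf : ∀ s ∈ S, (∏ p ∈ s, p).primeFactors = s := by
    intro s hs
    exact Nat.primeFactors_prod (hSp s hs)
  have hinj : Set.InjOn (fun s : Finset ℕ => ∏ p ∈ s, p) S := by
    intro s hs t ht hst
    have h1 : (∏ p ∈ s, p) = ∏ p ∈ t, p := hst
    rw [← hpf s hs, ← hpf t ht, h1]
  have hsub : S.image (fun s : Finset ℕ => ∏ p ∈ s, p) ⊆ (Icc 1 Q).filter Squarefree := by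
    intro q hq
    obtain ⟨s, hs, rfl⟩ := Finset.mem_image.1 hq
    rw [mem_filter, mem_Icc]
    refine ⟨⟨Finset.prod_pos fun p hp => (hSp s hs p hp).pos, ?_⟩, ?_⟩
    · have h1 : ∏ p ∈ s, p ≤ ∏ _p ∈ s, y :=
        Finset.prod_le_prod' fun p hp => (hP p ((Finset.mem_powersetCard.1 hs).1 hp)).2
      rw [Finset.prod_const, (Finset.mem_powersetCard.1 hs).2] at h1
      exact h1.trans hQ
    · apply Finset.squarefree_prod_of_pairwise_isCoprime
      · intro a ha b hb hab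
        exact Nat.coprime_iff_isRelPrime.1
          ((Nat.coprime_primes (hSp s hs a ha) (hSp s hs b hb)).2 hab)
      · intro a ha
        exact (hSp s hs a ha).squarefree
  have h1 : ∑ q ∈ S.image (fun s : Finset ℕ => ∏ p ∈ s, p), ∏ p ∈ q.primeFactors, g p ≤
      ∑ q ∈ (Icc 1 Q).filter Squarefree, ∏ p ∈ q.primeFactors, g p :=
    Finset.sum_le_sum_of_subset_of_nonneg hsub fun q _ _ =>
      Finset.prod_nonneg fun p hp => hnn p (Nat.prime_of_mem_primeFactors hp)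
  refine le_trans ?_ h1
  rw [Finset.sum_image hinj]
  calc (P.card.choose u : ℝ) * g0 ^ u = ∑ s ∈ S, g0 ^ u := by
        rw [Finset.sum_const, hS, Finset.card_powersetCard, nsmul_eq_mul]
    _ ≤ _ := by
        refine Finset.sum_le_sum fun s hs => ?_
        rw [hpf s hs]
        calc g0 ^ u = ∏ p ∈ s, g0 := by
              rw [Finset.prod_const, (Finset.mem_powersetCard.1 hs).2]
          _ ≤ _ := Finset.prod_le_prod (fun _ _ => hg0)
              fun p hp => hg p ((Finset.mem_powersetCard.1 hs).1 hp)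

/-- a lower bound for binomial coefficients -/
theorem choose_lower (n u : ℕ) (hu : 1 ≤ u) (h : 2 * u ≤ n) :
    ((n : ℝ) / (2 * u)) ^ u ≤ (n.choose u : ℝ) := by
  have h1 : ((n + 1 - u : ℕ) : ℝ) ^ u ≤ (u.factorial : ℝ) * (n.choose u : ℝ) := by
    exact_mod_cast Nat.pow_sub_le_descFactorial n u |>.trans
      (le_of_eq (Nat.descFactorial_eq_factorial_mul_choose n u))
  have h2 : (u.factorial : ℝ) ≤ (u : ℝ) ^ u := by exact_mod_cast Nat.factorial_le_pow u
  have hu' : (0 : ℝ) < u := by exact_mod_cast hu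
  have h3 : (n : ℝ) / 2 ≤ ((n + 1 - u : ℕ) : ℝ) := by
    rw [Nat.cast_sub (by omega)]
    push_cast
    have : (2 : ℝ) * u ≤ n := by exact_mod_cast h
    linarith
  have h4 : ((n : ℝ) / 2) ^ u ≤ (u : ℝ) ^ u * (n.choose u : ℝ) :=
    (pow_le_pow_left₀ (by positivity) h3 u).trans (h1.trans
      (mul_le_mul_of_nonneg_right h2 (Nat.cast_nonneg _)))
  rw [← div_div, div_pow, div_le_iff₀ (by positivity), mul_comm]
  exact h4

end Pool.Agent.V8H10.CC
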