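import Mathlib
import Pool.Agent.V8H10.CC.Sieve

/-!
# The finite form of the bound for the starts of long chains
-/

set_option autoImplicit false

open Finset

namespace Pool.Agent.V8H10.CC

open Pool.Agent.TH314.ET

open Classical in
/-- The integers `n ∈ [1, X]` such that none of the numbers `2 ^ i (M + n + b) - b`, `i < L`, has an odd
prime divisor `r ≤ y` with `r ∤ b`. -/
noncomputable def Zs (b M : ℤ) (X L y : ℕ) : Finset ℕ :=
  (Icc 1 X).filter (fun n => ∀ i < L, ∀ r : ℕ, r.Prime → r ≠ 2 → r ≤ y → ¬ (r : ℤ) ∣ b →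
    ¬ (r : ℤ) ∣ 2 ^ i * (M + n + b) - b)

lemma mem_Zs {b M : ℤ} {X L y n : ℕ} : n ∈ Zs b M X L y ↔ (1 ≤ n ∧ n ≤ X) ∧
    ∀ i < L, ∀ r : ℕ, r.Prime → r ≠ 2 → r ≤ y → ¬ (r : ℤ) ∣ b →
    ¬ (r : ℤ) ∣ 2 ^ i * (M + n + b) - b := by
  classical
  unfold Zs
  rw [Finset.mem_filter, Finset.mem_Icc]

lemma two_ne {r : ℕ} (hr : r.Prime) (h2 : r ≠ 2) : (2 : ZMod r) ≠ 0 := by
  intro h
  have h3 : ((2 : ℕ) : ZMod r) = 0 := by exact_mod_cast h
  rw [ZMod.natCast_eq_zero_iff] at h3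
  exact h2 ((Nat.prime_dvd_prime_iff_eq hr Nat.prime_two).1 h3)

/-- `D` classes are not met -/
lemma occ_Zs (b M : ℤ) (X L y : ℕ) {r : ℕ} (hr : r.Prime) (h2 : r ≠ 2) (hry : r ≤ y)
    (hrb : ¬ (r : ℤ) ∣ b) (D : ℕ) (hDL : D ≤ L) (hD : D ≤ orderOf (2 : ZMod r)) :
    occ (Zs b M X L y) r + D ≤ r := by
  classical
  have hfact : Fact r.Prime := ⟨hr⟩
  have h20 := two_ne hr h2
  have hb0 : (b : ZMod r) ≠ 0 := by
    intro h
    exact hrb ((ZMod.intCast_zmod_eq_zero_iff_dvd b r).1 h)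
  set f : ℕ → ℕ := fun i => ((b : ZMod r) * ((2 : ZMod r)⁻¹) ^ i - b - M).val with hf
  have hinj : Set.InjOn f (range D) := by
    intro i hi j hj hij
    have h1 : (b : ZMod r) * ((2 : ZMod r)⁻¹) ^ i - b - M =
        (b : ZMod r) * ((2 : ZMod r)⁻¹) ^ j - b - M := ZMod.val_injective r hij
    have h3 : (b : ZMod r) * ((2 : ZMod r)⁻¹) ^ i = (b : ZMod r) * ((2 : ZMod r)⁻¹) ^ j := by
      linear_combination h1
    have h4 := mul_left_cancel₀ hb0 h3
    rw [inv_pow, inv_pow, inv_inj] at h4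
    rw [Finset.coe_range, Set.mem_Iio] at hi hj
    exact pow_injOn_Iio_orderOf (Set.mem_Iio.2 (by omega)) (Set.mem_Iio.2 (by omega)) h4
  have hdisj : Disjoint ((Zs b M X L y).image (· % r)) ((range D).image f) := by
    rw [Finset.disjoint_left]
    intro c hc hc'
    obtain ⟨n, hn, rfl⟩ := Finset.mem_image.1 hc
    obtain ⟨i, hi, hi'⟩ := Finset.mem_image.1 hc'
    rw [Finset.mem_range] at hi
    have h1 : ((n % r : ℕ) : ZMod r) = (b : ZMod r) * ((2 : ZMod r)⁻¹) ^ i - b - M := by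
      have h3 : f i = n % r := hi'
      rw [← h3, hf]
      simp only [ZMod.natCast_val, ZMod.cast_id', id_eq]
    rw [ZMod.natCast_mod] at h1
    refine (mem_Zs.1 hn).2 i (by omega) r hr h2 hry hrb ?_
    rw [← ZMod.intCast_zmod_eq_zero_iff_dvd]
    push_cast
    rw [h1, inv_pow]
    have h4 : (2 : ZMod r) ^ i ≠ 0 := pow_ne_zero _ h20
    field_simp
    ring
  have hsub : (Zs b M X L y).image (· % r) ∪ (range D).image f ⊆ range r := by
    intro c hc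
    rcases Finset.mem_union.1 hc with h | h
    · obtain ⟨n, _, rfl⟩ := Finset.mem_image.1 h
      exact Finset.mem_range.2 (Nat.mod_lt _ hr.pos)
    · obtain ⟨i, _, rfl⟩ := Finset.mem_image.1 h
      exact Finset.mem_range.2 (ZMod.val_lt _)
  have h3 := Finset.card_le_card hsub
  rw [Finset.card_union_of_disjoint hdisj, Finset.card_image_of_injOn hinj, Finset.card_range,
    Finset.card_range] at h3
  exact h3

/-- the finite bound -/
theorem finite_bound (b : ℤ) (M : ℤ) (X L y D u n : ℕ) (hDL : D ≤ L) (hu : 1 ≤ u)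
    (hy : 1 ≤ y) (hyu : (y ^ u) ^ 2 ≤ X) (P : Finset ℕ)
    (hP : ∀ r ∈ P, r.Prime ∧ r ≤ y ∧ r ≠ 2 ∧ ¬ (r : ℤ) ∣ b ∧ D ≤ orderOf (2 : ZMod r))
    (hn : n ≤ P.card) (hun : 2 * u ≤ n) :
    ((Zs b M X L y).card : ℝ) * ((n : ℝ) / (2 * u) * (D / y)) ^ u ≤ 12 * X := by
  classical
  set Z := Zs b M X L y with hZ
  rcases Z.eq_empty_or_nonempty with h0 | h0
  · rw [h0]
    simp only [Finset.card_empty, Nat.cast_zero, zero_mul]
    positivity
  have hZsub : Z ⊆ Icc 1 X := by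
    intro m hm
    exact Finset.mem_Icc.2 (mem_Zs.1 hm).1
  have h1 := sieve_ineq hZsub (Nat.sqrt X)
  have hQ2 : ((Nat.sqrt X : ℕ) : ℝ) ^ 2 ≤ X := by exact_mod_cast Nat.sqrt_le' X
  have hyr : (0 : ℝ) < y := by exact_mod_cast hy
  have h2 := sum_lower P y u (Nat.sqrt X) (fun p hp => ⟨(hP p hp).1, (hP p hp).2.1⟩)
    (Nat.le_sqrt'.2 hyu)
    (fun p => ((p : ℝ) - occ Z p) / occ Z p) ((D : ℝ) / y) (by positivity)
    (fun p hp => by
      obtain ⟨hp2, hp1, hp3, hp4, hp5⟩ := hP p hp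
      have h3 := occ_Zs b M X L y hp2 hp3 hp1 hp4 D hDL hp5
      rw [← hZ] at h3
      have h4 : 0 < occ Z p := occ_pos h0 p
      have h5 : (0 : ℝ) < occ Z p := by exact_mod_cast h4
      have h6 : (D : ℝ) ≤ (p : ℝ) - occ Z p := by
        have : ((occ Z p : ℕ) : ℝ) + D ≤ p := by exact_mod_cast h3
        linarith
      have h7 : ((occ Z p : ℕ) : ℝ) ≤ y := by exact_mod_cast (by omega : occ Z p ≤ y)
      have hD0 : (0 : ℝ) ≤ D := Nat.cast_nonneg _
      show (D : ℝ) / y ≤ ((p : ℝ) - occ Z p) / occ Z p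
      rw [div_le_div_iff₀ hyr h5]
      calc (D : ℝ) * occ Z p ≤ D * y := mul_le_mul_of_nonneg_left h7 hD0
        _ ≤ ((p : ℝ) - occ Z p) * y := mul_le_mul_of_nonneg_right h6 hyr.le)
    (fun p hp => by
      have h3 := occ_le Z hp.pos
      have h4 : ((occ Z p : ℕ) : ℝ) ≤ p := by exact_mod_cast h3
      exact div_nonneg (by linarith) (Nat.cast_nonneg _))
  have h3 : ((n : ℝ) / (2 * u)) ^ u ≤ (P.card.choose u : ℝ) :=
    (choose_lower n u hu hun).trans (by exact_mod_cast Nat.choose_le_choose u hn)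
  have h4 : ((n : ℝ) / (2 * u) * (D / y)) ^ u ≤ ∑ q ∈ (Icc 1 (Nat.sqrt X)).filter Squarefree,
      ∏ p ∈ q.primeFactors, (((p : ℝ) - occ Z p) / occ Z p) := by
    rw [mul_pow]
    exact (mul_le_mul_of_nonneg_right h3 (by positivity)).trans h2
  calc (Z.card : ℝ) * ((n : ℝ) / (2 * u) * (D / y)) ^ u
      ≤ Z.card * ∑ q ∈ (Icc 1 (Nat.sqrt X)).filter Squarefree,
      ∏ p ∈ q.primeFactors, (((p : ℝ) - occ Z p) / occ Z p) :=
        mul_le_mul_of_nonneg_left h4 (Nat.cast_nonneg _)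
    _ ≤ 6 * (X + ((Nat.sqrt X : ℕ) : ℝ) ^ 2) := h1
    _ ≤ 12 * X := by linarith

end Pool.Agent.V8H10.CC
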