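import Mathlib

/-!
# Choice of the parameters
-/

set_option autoImplicit false

open Filter

namespace Pool.Agent.V8H10.CC

lemma ev_log_le (a s : ℝ) (hs : 0 < s) : ∀ᶠ l : ℝ in atTop, a * Real.log l ≤ l ^ s := by
  have h1 := (isLittleO_log_rpow_atTop hs).bound (show (0 : ℝ) < 1 / (|a| + 1) by positivity)
  filter_upwards [h1, eventually_ge_atTop (1 : ℝ)] with l hl hl1
  have h2 : 0 ≤ Real.log l := Real.log_nonneg hl1
  rw [Real.norm_of_nonneg h2, Real.norm_of_nonneg (by positivity)] at hl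
  have h3 : a * Real.log l ≤ (|a| + 1) * Real.log l :=
    mul_le_mul_of_nonneg_right ((le_abs_self a).trans (by linarith)) h2
  refine h3.trans ?_
  have h4 := mul_le_mul_of_nonneg_left hl (show (0 : ℝ) ≤ |a| + 1 by positivity)
  refine h4.trans (le_of_eq ?_)
  field_simp

lemma params (θ c B s : ℝ) (hθ : 1 / 2 ≤ θ) (hθ1 : θ ≤ 1) (hc : 0 < c) (hB : 1 < B)
    (hs' : s < θ / 2 * (1 - 1 / B)) (T : ℕ) : ∀ᶠ l : ℝ in atTop,
    ∃ y D u n : ℕ, T ≤ y ∧ 1 ≤ y ∧ (y : ℝ) ≤ l ^ (B / θ) ∧ (D : ℝ) ≤ l ^ B ∧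
      (D : ℝ) ≤ (y : ℝ) ^ θ ∧ 1 ≤ u ∧ 2 * u ≤ n ∧ (n : ℝ) ≤ c * (y / Real.log y) ∧
      2 * u * Real.log y ≤ l ∧ 2 * l ≤ c * (y / Real.log y) ∧
      24 * Real.exp (s * l) ≤ ((n : ℝ) / (2 * u) * (D / y)) ^ u ∧
      y = ⌊l ^ (B / θ)⌋₊ := by
  have hθ0 : 0 < θ := by linarith
  have hB0 : 0 < B := by linarith
  obtain ⟨β, hβ⟩ : ∃ β, β = B / θ := ⟨_, rfl⟩
  have hβ1 : 1 < β := by
    rw [hβ, lt_div_iff₀ hθ0]
    linarith
  have hβ0 : 0 < β := by linarith
  have hβB : β * θ = B := by rw [hβ]; field_simp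
  obtain ⟨C, hC⟩ : ∃ C, C = -Real.log (c / 8) := ⟨_, rfl⟩
  obtain ⟨η, hη⟩ : ∃ η, η = θ / 2 * (1 - 1 / B) - s := ⟨_, rfl⟩
  have hη0 : 0 < η := by rw [hη]; linarith
  have hs0 : (B - 1) / (2 * β) = s + η := by
    rw [hη, hβ]
    field_simp
    ring
  have e1 := Real.tendsto_log_atTop.eventually_ge_atTop (|C| / (β * η) + |C| / (B - 1) + 1)
  have e2 := (tendsto_rpow_atTop hβ0).eventually_ge_atTop (8 + 2 * T)
  have e3 := ev_log_le (4 * β / c) (β - 1) (by linarith)
  have e4 := ev_log_le (4 * β) 1 one_pos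
  have e5 := ev_log_le (4 * (B - 1) / η) 1 one_pos
  filter_upwards [e1, e2, e3, e4, e5, eventually_ge_atTop (3 : ℝ),
    eventually_ge_atTop ((4 / η) * (|C| + Real.log 24))] with l h1 h2 h3 h4 h5 h6 h7
  obtain ⟨lam, hlam⟩ : ∃ lam, lam = Real.log l := ⟨_, rfl⟩
  rw [← hlam] at h1 h3 h4 h5
  rw [Real.rpow_one] at h4 h5
  have hl0 : 0 < l := by linarith
  have hlam1 : 1 ≤ lam := by
    have : 0 ≤ |C| / (β * η) := by positivity
    have : 0 ≤ |C| / (B - 1) := div_nonneg (abs_nonneg _) (by linarith)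
    linarith
  have hlam0 : 0 < lam := by linarith
  rw [← hβ]
  -- y
  obtain ⟨Y, hY⟩ : ∃ Y, Y = l ^ β := ⟨_, rfl⟩
  rw [← hY] at h2
  have hT0 : (0 : ℝ) ≤ T := Nat.cast_nonneg _
  have hY8 : 8 ≤ Y := by linarith
  obtain ⟨y, hy⟩ : ∃ y, y = ⌊Y⌋₊ := ⟨_, rfl⟩
  have hyY : (y : ℝ) ≤ Y := by rw [hy]; exact Nat.floor_le (by linarith)
  have hyY2 : Y / 2 ≤ y := by
    have : Y < (y : ℝ) + 1 := by rw [hy]; exact Nat.lt_floor_add_one Y
    linarith
  have hy4 : (4 : ℝ) ≤ y := by linarith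
  have hy0 : (0 : ℝ) < y := by linarith
  have hyT : T ≤ y := by
    have : (T : ℝ) ≤ y := by linarith
    exact_mod_cast this
  have hlogy1 : 1 ≤ Real.log y := by
    rw [Real.le_log_iff_exp_le hy0]
    have := Real.exp_one_lt_d9
    linarith
  have hlogy0 : 0 < Real.log y := by linarith
  have hlogy : Real.log y ≤ β * lam := by
    rw [hlam, ← Real.log_rpow hl0, ← hY]
    exact Real.log_le_log hy0 hyY
  obtain ⟨W, hW⟩ : ∃ W, W = (y : ℝ) / Real.log y := ⟨_, rfl⟩
  have hW0 : 0 < W := by rw [hW]; positivity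
  have hWl : 2 * l ≤ c * W := by
    have h8 : Y = l * l ^ (β - 1) := by
      rw [hY]
      nth_rewrite 2 [← Real.rpow_one l]
      rw [← Real.rpow_add hl0]
      congr 1
      ring
    have h9 : 4 * β * lam ≤ c * l ^ (β - 1) := by
      have := mul_le_mul_of_nonneg_left h3 hc.le
      refine le_trans (le_of_eq ?_) this
      field_simp
    have h10 : l * (4 * β * lam) ≤ c * Y := by
      rw [h8]
      have := mul_le_mul_of_nonneg_left h9 hl0.le
      linarith
    rw [hW, ← mul_div_assoc, le_div_iff₀ hlogy0]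
    have h11 : 2 * l * Real.log y ≤ 2 * l * (β * lam) :=
      mul_le_mul_of_nonneg_left hlogy (by linarith)
    have h12 : c * (Y / 2) ≤ c * y := mul_le_mul_of_nonneg_left hyY2 hc.le
    nlinarith
  -- n
  obtain ⟨n, hn⟩ : ∃ n, n = ⌊c * W⌋₊ := ⟨_, rfl⟩
  have hn1 : (n : ℝ) ≤ c * W := by rw [hn]; exact Nat.floor_le (by positivity)
  have hn2 : c * W / 2 ≤ n := by
    have : c * W < (n : ℝ) + 1 := by rw [hn]; exact Nat.lt_floor_add_one _
    linarith
  -- u
  obtain ⟨u, hu⟩ : ∃ u, u = ⌊l / (2 * Real.log y)⌋₊ := ⟨_, rfl⟩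
  have hu1 : (u : ℝ) ≤ l / (2 * Real.log y) := by rw [hu]; exact Nat.floor_le (by positivity)
  have hu2 : l / (2 * β * lam) - 1 ≤ u := by
    have h8 : l / (2 * Real.log y) < (u : ℝ) + 1 := by rw [hu]; exact Nat.lt_floor_add_one _
    have h9 : l / (2 * β * lam) ≤ l / (2 * Real.log y) := by
      apply div_le_div_of_nonneg_left hl0.le (by positivity)
      linarith
    linarith
  have hu3 : 2 ≤ l / (2 * β * lam) := by
    rw [le_div_iff₀ (by positivity)]
    linarith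
  have hu4 : 1 ≤ u := by
    have : (1 : ℝ) ≤ u := by linarith
    exact_mod_cast this
  have hu0 : (0 : ℝ) < u := by exact_mod_cast hu4
  have hu5 : 2 * (u : ℝ) * Real.log y ≤ l := by
    rw [le_div_iff₀ (by positivity)] at hu1
    linarith
  have hun : 2 * u ≤ n := by
    have h8 : 2 * (u : ℝ) ≤ n := by
      have h9 : 2 * (u : ℝ) ≤ 2 * (u : ℝ) * Real.log y := le_mul_of_one_le_right (by positivity) hlogy1
      linarith
    exact_mod_cast h8
  -- D
  obtain ⟨D, hD⟩ : ∃ D, D = ⌊(y : ℝ) ^ θ⌋₊ := ⟨_, rfl⟩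
  have hyθ0 : 0 < (y : ℝ) ^ θ := by positivity
  have hD1 : (D : ℝ) ≤ (y : ℝ) ^ θ := by rw [hD]; exact Nat.floor_le hyθ0.le
  have hyθ2 : 2 ≤ (y : ℝ) ^ θ := by
    calc (2 : ℝ) = (4 : ℝ) ^ (1 / 2 : ℝ) := by
          rw [show (4 : ℝ) = 2 ^ (2 : ℝ) by norm_num, ← Real.rpow_mul (by norm_num)]
          norm_num
      _ ≤ (y : ℝ) ^ (1 / 2 : ℝ) := Real.rpow_le_rpow (by norm_num) hy4 (by norm_num)
      _ ≤ (y : ℝ) ^ θ := Real.rpow_le_rpow_of_exponent_le (by linarith) hθ
  have hD2 : (y : ℝ) ^ θ / 2 ≤ D := by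
    have : (y : ℝ) ^ θ < (D : ℝ) + 1 := by rw [hD]; exact Nat.lt_floor_add_one _
    linarith
  have hlB : (y : ℝ) ^ θ ≤ l ^ B := by
    calc (y : ℝ) ^ θ ≤ Y ^ θ := Real.rpow_le_rpow hy0.le hyY hθ0.le
      _ = l ^ B := by rw [hY, ← Real.rpow_mul hl0.le, hβB]
  have hlB2 : l ^ B / 2 ≤ (y : ℝ) ^ θ := by
    calc l ^ B / 2 ≤ l ^ B / 2 ^ θ := by
          apply div_le_div_of_nonneg_left (by positivity) (by positivity)
          calc (2 : ℝ) ^ θ ≤ 2 ^ (1 : ℝ) :=
                Real.rpow_le_rpow_of_exponent_le (by norm_num) hθ1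
            _ = 2 := Real.rpow_one _
      _ = (Y / 2) ^ θ := by
          rw [Real.div_rpow (by linarith) (by norm_num), hY, ← Real.rpow_mul hl0.le, hβB]
      _ ≤ (y : ℝ) ^ θ := Real.rpow_le_rpow (by linarith) hyY2 hθ0.le
  -- A
  have hA : c / 8 * l ^ (B - 1) ≤ (n : ℝ) / (2 * u) * (D / y) := by
    have h8 : c * W / 2 / (l / Real.log y) ≤ (n : ℝ) / (2 * u) := by
      apply div_le_div₀ (Nat.cast_nonneg _) hn2 (by positivity)
      rw [le_div_iff₀ hlogy0]
      exact hu5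
    have h9 : (y : ℝ) ^ θ / 2 / y ≤ (D : ℝ) / y := div_le_div_of_nonneg_right hD2 hy0.le
    have h10 : c * W / 2 / (l / Real.log y) * ((y : ℝ) ^ θ / 2 / y) ≤
        (n : ℝ) / (2 * u) * (D / y) := mul_le_mul h8 h9 (by positivity) (by positivity)
    refine le_trans ?_ h10
    have h11 : c * W / 2 / (l / Real.log y) * ((y : ℝ) ^ θ / 2 / y) =
        c * (y : ℝ) ^ θ / (4 * l) := by
      rw [hW]
      field_simp
      ring
    rw [h11, le_div_iff₀ (by positivity)]
    have h12 : l ^ (B - 1) * l = l ^ B := by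
      nth_rewrite 2 [← Real.rpow_one l]
      rw [← Real.rpow_add hl0]
      congr 1
      ring
    calc c / 8 * l ^ (B - 1) * (4 * l) = c * ((l ^ (B - 1) * l) / 2) := by ring
      _ = c * (l ^ B / 2) := by rw [h12]
      _ ≤ c * (y : ℝ) ^ θ := mul_le_mul_of_nonneg_left hlB2 hc.le
  refine ⟨y, D, u, n, hyT, by
    have : (1 : ℝ) ≤ y := by linarith
    exact_mod_cast this, hY ▸ hyY, hD1.trans hlB, hD1, hu4, hun, hW ▸ hn1, hu5, hW ▸ hWl, ?_,
    by rw [hy, hY]⟩
  have hexp : c / 8 * l ^ (B - 1) = Real.exp ((B - 1) * lam - C) := by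
    rw [hC, sub_neg_eq_add, Real.exp_add, Real.exp_log (by positivity), hlam, mul_comm (B - 1),
      ← Real.rpow_def_of_pos hl0]
    ring
  have hE0 : 0 ≤ (B - 1) * lam - C := by
    have h8 : |C| / (B - 1) ≤ lam := by
      have : 0 ≤ |C| / (β * η) := by positivity
      linarith
    rw [div_le_iff₀ (by linarith)] at h8
    have := le_abs_self C
    linarith
  calc 24 * Real.exp (s * l) = Real.exp (Real.log 24 + s * l) := by
        rw [Real.exp_add, Real.exp_log (by norm_num)]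
    _ ≤ Real.exp (u * ((B - 1) * lam - C)) := by
        apply Real.exp_le_exp.2
        have h8 : (l / (2 * β * lam) - 1) * ((B - 1) * lam - C) ≤ u * ((B - 1) * lam - C) :=
          mul_le_mul_of_nonneg_right hu2 hE0
        refine le_trans ?_ h8
        have h9 : (l / (2 * β * lam) - 1) * ((B - 1) * lam - C) =
            l * ((B - 1) / (2 * β)) - l * (C / (2 * β * lam)) - (B - 1) * lam + C := by
          field_simp
          ring
        rw [h9, hs0]
        have h10 : C / (2 * β * lam) ≤ η / 2 := by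
          rw [div_le_iff₀ (by positivity)]
          have h11 : |C| / (β * η) ≤ lam := by
            have : 0 ≤ |C| / (B - 1) := div_nonneg (abs_nonneg _) (by linarith)
            linarith
          rw [div_le_iff₀ (by positivity)] at h11
          have := le_abs_self C
          linarith
        have h11 := mul_le_mul_of_nonneg_left h10 hl0.le
        have h12 : (B - 1) * lam ≤ η / 4 * l := by
          have := mul_le_mul_of_nonneg_left h5 (show (0 : ℝ) ≤ η / 4 by positivity)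
          refine le_trans (le_of_eq ?_) this
          field_simp
        have h13 : |C| + Real.log 24 ≤ η / 4 * l := by
          have := mul_le_mul_of_nonneg_left h7 (show (0 : ℝ) ≤ η / 4 by positivity)
          refine le_trans (le_of_eq ?_) this
          field_simp
        have h14 := neg_abs_le C
        linarith
    _ = (Real.exp ((B - 1) * lam - C)) ^ u := by rw [← Real.exp_nat_mul]
    _ ≤ _ := by
        rw [← hexp]
        exact pow_le_pow_left₀ (by positivity) hA u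

end Pool.Agent.V8H10.CC
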