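import Mathlib
import Pool.Agent.V8H10.CC.Fin
import Pool.Agent.V8H10.CC.Ord
import Pool.Agent.V8H10.CC.Num

/-!
# Starts of long Cunningham chains are rare
-/

set_option autoImplicit false

open Finset Filter

namespace Pool.Agent.V8H10.CC

lemma iter_S (b x : ℤ) (i : ℕ) : (fun z : ℤ => 2 * z + b)^[i] x = 2 ^ i * (x + b) - b := by
  induction i with
  | zero => simp
  | succ i ih =>
    rw [Function.iterate_succ_apply', ih]
    ring

/-- The main bound for the sifted set. -/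
theorem main_sift : ∃ θ : ℝ, 1 / 2 < θ ∧ θ ≤ 1 ∧ ∀ B : ℝ, 1 < B → ∀ᶠ X : ℕ in atTop,
    ∀ L : ℕ, Real.log X ^ B ≤ L → ∀ M b : ℤ, b ≠ 0 → |b| ≤ X →
    ({x : ℤ | (M < x ∧ x ≤ M + X) ∧ ∀ i < L, ∀ r : ℕ, r.Prime → r ≠ 2 →
      (r : ℝ) ≤ Real.log X ^ (2 * B) → ¬ (r : ℤ) ∣ b →
      ¬ (r : ℤ) ∣ 2 ^ i * (x + b) - b}.ncard : ℝ) ≤
      (X : ℝ) ^ (1 - θ / 2 * (1 - 1 / B)) / 2 := by
  classical
  obtain ⟨κ, c, hκ, hκ4, hc, T, hT⟩ := good_primes
  refine ⟨1 / 2 + κ / 2, by linarith, by linarith, fun B hB => ?_⟩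
  have hB0 : 0 < B := by linarith
  have hB1 : 0 < 1 - 1 / B := by
    rw [sub_pos, div_lt_one hB0]
    exact hB
  set s : ℝ := (1 / 2 + κ / 2) / 2 * (1 - 1 / B) with hs
  have hs' : s < (1 / 2 + κ) / 2 * (1 - 1 / B) := by
    rw [hs]
    apply mul_lt_mul_of_pos_right _ hB1
    linarith
  have hpar := params (1 / 2 + κ) c B s (by linarith) (by linarith) hc hB hs' T
  have hlog : Tendsto (fun X : ℕ => Real.log (X : ℝ)) atTop atTop :=
    Real.tendsto_log_atTop.comp tendsto_natCast_atTop_atTop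
  filter_upwards [hlog.eventually hpar, hlog.eventually_ge_atTop 1, eventually_ge_atTop 1]
    with X hX hX1 hX2 L hL M b hb hbX
  obtain ⟨y, D, u, n, h1, h2, h3, h4, h5, h6, h7, h8, h9, h10, h11, h12⟩ := hX
  have hXr : (0 : ℝ) < X := by exact_mod_cast hX2
  set l := Real.log (X : ℝ) with hl
  have hy0 : (0 : ℝ) < y := by exact_mod_cast h2
  have hexpl : Real.exp l = X := by rw [hl, Real.exp_log hXr]
  -- the number of prime factors of `b`
  have hbc : (b.natAbs.primeFactors.card : ℝ) ≤ c * (y / Real.log y) := by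
    refine le_trans ?_ h10
    have e1 : 2 ^ b.natAbs.primeFactors.card ≤ b.natAbs :=
      two_pow_card_le _ (Int.natAbs_ne_zero.2 hb)
    have e2 : ((2 : ℝ) ^ b.natAbs.primeFactors.card) ≤ X := by
      have e3 : b.natAbs ≤ X := by
        have := Int.abs_eq_natAbs b
        omega
      exact_mod_cast e1.trans e3
    have e4 := Real.log_le_log (by positivity) e2
    rw [Real.log_pow, ← hl] at e4
    have e5 := Real.log_two_gt_d9
    have e6 : (0 : ℝ) ≤ (b.natAbs.primeFactors.card : ℝ) := Nat.cast_nonneg _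
    nlinarith
  obtain ⟨P, hP1, hP2⟩ := hT y h1 b hb hbc
  have hnP : n ≤ P.card := by exact_mod_cast h8.trans hP1
  have hDL : D ≤ L := by exact_mod_cast h4.trans hL
  have hyu : (y ^ u) ^ 2 ≤ X := by
    have e1 : ((y : ℝ) ^ u) ^ 2 ≤ X := by
      rw [← pow_mul, ← Real.exp_log (show 0 < (y : ℝ) ^ (u * 2) by positivity), Real.log_pow,
        ← hexpl]
      apply Real.exp_le_exp.2
      push_cast
      linarith
    exact_mod_cast e1
  have hfin := finite_bound b M X L y D u n hDL h6 h2 hyu P (fun r hr => by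
    obtain ⟨g1, g2, g3, g4, g5⟩ := hP2 r hr
    refine ⟨g1, g2, g3, g4, ?_⟩
    exact_mod_cast (h5.trans g5.le)) hnP h7
  -- the bound for the sifted set
  have hZ : ((Zs b M X L y).card : ℝ) ≤ (X : ℝ) ^ (1 - s) / 2 := by
    have e1 : ((Zs b M X L y).card : ℝ) * (24 * Real.exp (s * l)) ≤ 12 * X :=
      (mul_le_mul_of_nonneg_left h11 (Nat.cast_nonneg _)).trans hfin
    have e2 : (X : ℝ) ^ (1 - s) * Real.exp (s * l) = X := by
      rw [Real.rpow_def_of_pos hXr, ← Real.exp_add, ← hl]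
      have : l * (1 - s) + s * l = l := by ring
      rw [this, hexpl]
    have e3 : 0 < Real.exp (s * l) := Real.exp_pos _
    have e4 : ((Zs b M X L y).card : ℝ) * Real.exp (s * l) ≤
        (X : ℝ) ^ (1 - s) / 2 * Real.exp (s * l) := by
      linarith
    exact le_of_mul_le_mul_right e4 e3
  refine le_trans ?_ hZ
  -- the set is contained in the translate of `Zs`
  have hsub : {x : ℤ | (M < x ∧ x ≤ M + X) ∧ ∀ i < L, ∀ r : ℕ, r.Prime → r ≠ 2 →
      (r : ℝ) ≤ l ^ (2 * B) → ¬ (r : ℤ) ∣ b → ¬ (r : ℤ) ∣ 2 ^ i * (x + b) - b} ⊆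
      (((Zs b M X L y).image (fun n : ℕ => M + (n : ℤ)) : Finset ℤ) : Set ℤ) := by
    intro x hx
    obtain ⟨⟨hx1, hx2⟩, hx3⟩ := hx
    rw [Finset.mem_coe, Finset.mem_image]
    refine ⟨(x - M).toNat, ?_, by omega⟩
    rw [mem_Zs]
    refine ⟨⟨by omega, by omega⟩, fun i hi r hr hr2 hry hrb hd => ?_⟩
    refine hx3 i hi r hr hr2 ?_ hrb ?_
    · have e1 : (r : ℝ) ≤ y := by exact_mod_cast hry
      refine e1.trans (h3.trans ?_)
      apply Real.rpow_le_rpow_of_exponent_le hX1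
      rw [div_le_iff₀ (by linarith)]
      nlinarith
    · have e1 : ((x - M).toNat : ℤ) = x - M := by omega
      rw [e1] at hd
      have e2 : M + (x - M) + b = x + b := by ring
      rw [e2] at hd
      exact hd
  calc _ ≤ (((((Zs b M X L y).image (fun n : ℕ => M + (n : ℤ)) : Finset ℤ) : Set ℤ)).ncard : ℝ) := by
        exact_mod_cast Set.ncard_le_ncard hsub (Finset.finite_toSet _)
    _ ≤ _ := by
        rw [Set.ncard_coe_finset]
        exact_mod_cast Finset.card_image_le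

/-- The main theorem. -/
theorem main : ∃ θ : ℝ, 1 / 2 < θ ∧ ∀ B : ℝ, 1 < B → ∃ X₀ : ℕ, ∀ X : ℕ, X₀ ≤ X →
    ∀ L : ℕ, Real.log X ^ B ≤ L → ∀ M b : ℤ, b ≠ 0 → |b| ≤ X →
    ({x : ℤ | (M < x ∧ x ≤ M + X) ∧ ∀ i < L, ∀ r : ℕ, r.Prime → r ≠ 2 →
      (r : ℝ) ≤ Real.log X ^ (2 * B) → ¬ (r : ℤ) ∣ b →
      ¬ (r : ℤ) ∣ (fun z : ℤ => 2 * z + b)^[i] x}.ncard : ℝ) ≤
      (X : ℝ) ^ (1 - θ / 2 * (1 - 1 / B)) ∧
    ({x : ℤ | (M < x ∧ x ≤ M + X) ∧ x ≠ -b ∧ ∀ i < L, ∃ q : ℕ, q.Prime ∧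
      (fun z : ℤ => 2 * z + b)^[i] x = q}.ncard : ℝ) ≤
      (X : ℝ) ^ (1 - θ / 2 * (1 - 1 / B)) := by
  classical
  obtain ⟨θ, hθ, hθ1, hmain⟩ := main_sift
  refine ⟨θ, hθ, fun B hB => ?_⟩
  have hB0 : 0 < B := by linarith
  have hB1 : 0 < 1 - 1 / B := by
    rw [sub_pos, div_lt_one hB0]
    exact hB
  have hB2 : 1 - 1 / B < 1 := by
    have : 0 < 1 / B := by positivity
    linarith
  set σ : ℝ := 1 - θ / 2 * (1 - 1 / B) with hσ
  have hσ0 : 1 / 4 ≤ σ := by
    rw [hσ]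
    nlinarith
  have hlog : Tendsto (fun X : ℕ => Real.log (X : ℝ)) atTop atTop :=
    Real.tendsto_log_atTop.comp tendsto_natCast_atTop_atTop
  -- the small starts
  have e1 : ∀ᶠ X : ℕ in atTop, Real.log X ^ (2 * B) ≤ (X : ℝ) ^ σ / 2 := by
    have h1 := (isLittleO_log_rpow_rpow_atTop (2 * B) (show (0 : ℝ) < σ by linarith)).bound
      (show (0 : ℝ) < 1 / 2 by norm_num)
    have h2 := tendsto_natCast_atTop_atTop (R := ℝ) |>.eventually h1
    filter_upwards [h2, eventually_ge_atTop 1] with X hX hX1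
    have hX0 : (1 : ℝ) ≤ X := by exact_mod_cast hX1
    have h3 : 0 ≤ Real.log (X : ℝ) := Real.log_nonneg hX0
    rw [Real.norm_of_nonneg (by positivity), Real.norm_of_nonneg (by positivity)] at hX
    linarith
  have e2 : ∀ᶠ X : ℕ in atTop, 2 * Real.log X + 1 < Real.log X ^ B := by
    have h2 : Tendsto (fun l : ℝ => l ^ (B - 1)) atTop atTop := tendsto_rpow_atTop (by linarith)
    have h3 := (h2.comp hlog).eventually_gt_atTop 3
    filter_upwards [h3, hlog.eventually_ge_atTop 1] with X hX hX1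
    have h4 : Real.log X ^ B = Real.log X ^ (B - 1) * Real.log X := by
      nth_rewrite 3 [← Real.rpow_one (Real.log X)]
      rw [← Real.rpow_add (by linarith)]
      congr 1
      ring
    have h5 : (3 : ℝ) < Real.log X ^ (B - 1) := hX
    rw [h4]
    nlinarith
  obtain ⟨X₀, hX₀⟩ := eventually_atTop.1 (((hmain B hB).and (e1.and e2)).and
    (eventually_ge_atTop 1))
  refine ⟨X₀, fun X hX L hL M b hb hbX => ?_⟩
  obtain ⟨⟨g1, g2, g3⟩, g4⟩ := hX₀ X hX
  have hXr : (0 : ℝ) < X := by exact_mod_cast g4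
  have g5 := g1 L hL M b hb hbX
  simp only [iter_S]
  have hXσ : 0 ≤ (X : ℝ) ^ σ := by positivity
  refine ⟨g5.trans (by linarith), ?_⟩
  set A : Set ℤ := {x : ℤ | (M < x ∧ x ≤ M + X) ∧ ∀ i < L, ∀ r : ℕ, r.Prime → r ≠ 2 →
      (r : ℝ) ≤ Real.log X ^ (2 * B) → ¬ (r : ℤ) ∣ b →
      ¬ (r : ℤ) ∣ 2 ^ i * (x + b) - b} with hA
  have hAfin : A.Finite := (Set.finite_Ioc M (M + X)).subset fun x hx => hx.1
  set K : ℕ := ⌊Real.log X ^ (2 * B)⌋₊ with hK
  have hKle : (K : ℝ) ≤ Real.log X ^ (2 * B) :=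
    Nat.floor_le (Real.rpow_nonneg (Real.log_natCast_nonneg X) _)
  have hL1 : 1 ≤ L := by
    have : (0 : ℝ) < L := by
      have := Real.log_natCast_nonneg X
      linarith
    exact_mod_cast this
  have h2L : (X : ℤ) < 2 ^ (L - 1) := by
    have h1 : Real.log X < (L - 1 : ℕ) * Real.log 2 := by
      rw [Nat.cast_sub hL1]
      push_cast
      have h2 := Real.log_two_gt_d9
      have h3 := Real.log_natCast_nonneg X
      have h4 : 2 * Real.log X < L - 1 := by linarith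
      nlinarith
    have h2 : (X : ℝ) < (2 : ℝ) ^ (L - 1) := by
      rw [← Real.log_pow] at h1
      exact (Real.log_lt_log_iff hXr (by positivity)).1 h1
    exact_mod_cast h2
  have hsub : {x : ℤ | (M < x ∧ x ≤ M + X) ∧ x ≠ -b ∧ ∀ i < L, ∃ q : ℕ, q.Prime ∧
      2 ^ i * (x + b) - b = q} ⊆ A ∪ (Set.Ioc (0 : ℤ) (K : ℤ)) := by
    intro x hx
    obtain ⟨hx1, hx2, hx3⟩ := hx
    have hpos : 1 ≤ x + b := by
      by_contra hcon
      have h1 : x + b ≤ -1 := by
        have : x + b ≠ 0 := fun h => hx2 (by omega)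
        omega
      obtain ⟨q, _, hq⟩ := hx3 (L - 1) (by omega)
      have h2 : (0 : ℤ) ≤ q := by positivity
      have h3 : (2 : ℤ) ^ (L - 1) * (x + b) ≤ 2 ^ (L - 1) * (-1) :=
        mul_le_mul_of_nonneg_left h1 (by positivity)
      have h4 := neg_le_of_abs_le hbX
      linarith
    have hge : ∀ i : ℕ, x ≤ 2 ^ i * (x + b) - b := by
      intro i
      have h1 : (1 : ℤ) ≤ 2 ^ i := one_le_pow₀ (by norm_num)
      nlinarith
    by_cases hxK : x ≤ K
    · right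
      obtain ⟨q, hq, hq2⟩ := hx3 0 (by omega)
      have : (0 : ℤ) < q := by exact_mod_cast hq.pos
      rw [pow_zero] at hq2
      exact ⟨by linarith, hxK⟩
    · left
      refine ⟨hx1, fun i hi r hr hr2 hry hrb hd => ?_⟩
      obtain ⟨q, hq, hq2⟩ := hx3 i hi
      rw [hq2] at hd
      have h1 : r ∣ q := by exact_mod_cast hd
      have h2 : r = q := (Nat.prime_dvd_prime_iff_eq hr hq).1 h1
      have h3 : r ≤ K := Nat.le_floor hry
      have h4 := hge i
      rw [hq2, ← h2] at h4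
      have h5 : (r : ℤ) ≤ K := by exact_mod_cast h3
      omega
  have hcard : (({x : ℤ | (M < x ∧ x ≤ M + X) ∧ x ≠ -b ∧ ∀ i < L, ∃ q : ℕ, q.Prime ∧
      2 ^ i * (x + b) - b = q}).ncard : ℝ) ≤ A.ncard + K := by
    have h1 := Set.ncard_le_ncard hsub (hAfin.union (Set.finite_Ioc _ _))
    have h2 := Set.ncard_union_le A (Set.Ioc (0 : ℤ) (K : ℤ))
    have h3 : (Set.Ioc (0 : ℤ) (K : ℤ)).ncard = K := by
      rw [← Finset.coe_Ioc, Set.ncard_coe_finset, Int.card_Ioc]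
      simp
    rw [h3] at h2
    exact_mod_cast h1.trans h2
  refine hcard.trans ?_
  linarith

end Pool.Agent.V8H10.CC
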